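import Pool.Agent.T9h11.NF.Spec2

/-!
# Project NF: piece `AbsInt` (norms and integrality in the absorber group)
-/

set_option autoImplicit false
set_option linter.unusedSectionVars false

namespace Pool.Agent.T9h85.NF

open Finset NumberField Pool.Agent.T9h11.NF

variable {K : Type} [Field K] [NumberField K]

theorem norm_E (x : K) (v : InfinitePlace K) : ‖E x v‖ = v x :=
  InfinitePlace.norm_embedding_eq v x

theorem nrm_E (x : K) : nrm (E x) = ((|Algebra.norm ℚ x| : ℚ) : ℝ) := by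
  unfold nrm
  rw [← InfinitePlace.prod_eq_abs_norm]
  exact prod_congr rfl fun v _ => by rw [norm_E]

theorem nrm_mul (z w : Sp K) : nrm (z * w) = nrm z * nrm w := by
  unfold nrm
  rw [← prod_mul_distrib]
  exact prod_congr rfl fun v _ => by rw [Pi.mul_apply, norm_mul, mul_pow]

theorem nrm_unit {u : 𝓞 K} (hu : IsUnit u) : nrm (E (u : K)) = 1 := by
  rw [nrm_E]
  have h1 := NumberField.isUnit_iff_norm.1 hu
  rw [RingOfIntegers.coe_norm] at h1
  exact_mod_cast h1

theorem nrm_nat (x : 𝓞 K) : ∃ n : ℕ, nrm (E (x : K)) = n := by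
  refine ⟨(Algebra.norm ℤ x).natAbs, ?_⟩
  rw [nrm_E, ← Algebra.coe_norm_int x, Nat.cast_natAbs]
  push_cast
  rfl

theorem nrm_ne {x : K} (hx : x ≠ 0) : nrm (E x) ≠ 0 := by
  rw [nrm_E]
  have h1 : Algebra.norm ℚ x ≠ 0 := Algebra.norm_ne_zero_iff.2 hx
  exact_mod_cast abs_ne_zero.2 h1

theorem isUnit_of_nrm {x : 𝓞 K} (h : nrm (E (x : K)) = 1) : IsUnit x := by
  rw [NumberField.isUnit_iff_norm, RingOfIntegers.coe_norm]
  rw [nrm_E] at h
  exact_mod_cast h

theorem log_nrm {x : K} (hx : x ≠ 0) :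
    Real.log (nrm (E x)) = ∑ v : InfinitePlace K, (v.mult : ℝ) * Real.log (v x) := by
  unfold nrm
  rw [Real.log_prod]
  · exact sum_congr rfl fun v _ => by rw [norm_E, Real.log_pow]
  · intro v _
    rw [norm_E]
    exact pow_ne_zero _ (by rw [ne_eq, map_eq_zero]; exact hx)

theorem not_unit_pi (a : Absb K) : ¬ IsUnit a.pi := by
  intro hu
  have h1 : ∀ i, nrm (E (a.e i : K)) = 1 := by
    intro i
    by_cases hi : i = a.i₀
    · subst hi
      exact nrm_unit hu
    · exact nrm_unit (a.unit i hi)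
  have h2 : ∀ i, ∑ v : InfinitePlace K, (v.mult : ℝ) * Real.log (v (a.e i : K)) = 0 := by
    intro i
    rw [← log_nrm (by exact_mod_cast a.ne i), h1, Real.log_one]
  let φ : (InfinitePlace K → ℝ) →ₗ[ℝ] ℝ := ∑ v : InfinitePlace K, (v.mult : ℝ) • LinearMap.proj v
  have hφ : ∀ w, φ w = ∑ v : InfinitePlace K, (v.mult : ℝ) * w v := by
    intro w
    simp [φ]
  have h3 : φ = 0 := by
    have hb := a.reg
    let b := basisOfLinearIndependentOfCardEqFinrank hb (by simp)
    apply b.ext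
    intro i
    rw [coe_basisOfLinearIndependentOfCardEqFinrank, hφ, h2]
    rfl
  have h4 := hφ (fun _ => 1)
  rw [h3] at h4
  have h5 : (0 : ℝ) < ∑ v : InfinitePlace K, (v.mult : ℝ) * 1 := by
    apply sum_pos
    · intro v _
      rw [mul_one]
      exact_mod_cast InfinitePlace.mult_pos
    · exact univ_nonempty
  rw [← h4] at h5
  simp at h5

theorem one_lt_pi (a : Absb K) : 1 < nrm (E (a.pi : K)) := by
  obtain ⟨n, hn⟩ := nrm_nat a.pi
  have h0 : nrm (E (a.pi : K)) ≠ 0 := nrm_ne (by exact_mod_cast a.ne a.i₀)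
  have h1 : nrm (E (a.pi : K)) ≠ 1 := fun h => not_unit_pi a (isUnit_of_nrm h)
  rw [hn] at h0 h1 ⊢
  have h2 : n ≠ 0 := by exact_mod_cast h0
  have h3 : n ≠ 1 := by exact_mod_cast h1
  have h4 : 1 < n := by omega
  exact_mod_cast h4

/-- the norm as a monoid homomorphism -/
noncomputable def nrmHom : K →*₀ ℝ where
  toFun x := nrm (E x)
  map_zero' := by
    rw [nrm_E, Algebra.norm_zero]
    simp
  map_one' := by
    rw [nrm_E, map_one]
    simp
  map_mul' x y := by rw [map_mul, nrm_mul]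

theorem nrm_el (a : Absb K) (k : InfinitePlace K → ℤ) :
    nrm (E (a.el k)) = nrm (E (a.pi : K)) ^ (k a.i₀) := by
  show nrmHom (a.el k) = nrmHom (a.pi : K) ^ (k a.i₀)
  unfold Absb.el
  rw [map_prod, prod_eq_single a.i₀]
  · rw [map_zpow₀]
    rfl
  · intro i _ hi
    rw [map_zpow₀]
    have : nrmHom (a.e i : K) = 1 := nrm_unit (a.unit i hi)
    rw [this, one_zpow]
  · intro h
    exact absurd (mem_univ _) h

theorem int_el (a : Absb K) (k : InfinitePlace K → ℤ) (hk : 0 ≤ k a.i₀) :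
    ∃ g : 𝓞 K, (g : K) = a.el k ∧ Ideal.span {g} = Ideal.span {a.pi} ^ (k a.i₀).toNat := by
  classical
  let U : InfinitePlace K → (𝓞 K)ˣ := fun i => if h : i = a.i₀ then 1 else (a.unit i h).unit
  have hU : ∀ i, i ≠ a.i₀ → ((U i : 𝓞 K) : K) = (a.e i : K) := by
    intro i hi
    simp [U, hi]
  let u : (𝓞 K)ˣ := ∏ i ∈ univ.erase a.i₀, U i ^ k i
  refine ⟨(u : 𝓞 K) * a.pi ^ (k a.i₀).toNat, ?_, ?_⟩
  · unfold Absb.el
    rw [← mul_prod_erase univ _ (mem_univ a.i₀), mul_comm (u : 𝓞 K)]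
    have h0 : ∀ x y : 𝓞 K, ((x * y : 𝓞 K) : K) = (x : K) * (y : K) := fun x y => map_mul _ x y
    rw [h0]
    congr 1
    · have h5 : ((a.pi ^ (k a.i₀).toNat : 𝓞 K) : K) = (a.pi : K) ^ (k a.i₀).toNat := map_pow _ _ _
      rw [h5, ← zpow_natCast, Int.toNat_of_nonneg hk]
      rfl
    · have h1 : ((u : 𝓞 K) : K) = ∏ i ∈ univ.erase a.i₀, ((U i : 𝓞 K) : K) ^ k i := by
        have h2 : ∀ x : (𝓞 K)ˣ, ((x : 𝓞 K) : K) =
            ((Units.map (algebraMap (𝓞 K) K : 𝓞 K →* K) x : Kˣ) : K) := fun x => rfl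
        rw [h2]
        simp only [u, map_prod, map_zpow, Units.coe_prod, Units.val_zpow_eq_zpow_val]
        rfl
      rw [h1]
      exact prod_congr rfl fun i hi => by rw [hU i (ne_of_mem_erase hi)]
  · rw [Ideal.span_singleton_mul_left_unit u.isUnit, Ideal.span_singleton_pow]

theorem el_ne_zero (a : Absb K) (k : InfinitePlace K → ℤ) : a.el k ≠ 0 := by
  unfold Absb.el
  rw [prod_ne_zero_iff]
  intro i _
  apply zpow_ne_zero
  exact_mod_cast a.ne i

theorem absInt (K : Type) [Field K] [NumberField K] : AbsInt K :=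
  fun a => ⟨one_lt_pi a, not_unit_pi a, fun k => ⟨nrm_el a k, el_ne_zero a k, int_el a k⟩⟩

end Pool.Agent.T9h85.NF
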